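import Pool.Agent.Q75.BS.Stm

set_option autoImplicit false

/-!
# Project BS (helper75), job HIT: a state whose orbit hits a vertex has the limit of the vertex
-/

namespace Pool.Agent.Q210.BS

open Complex Set MeasureTheory Filter Topology Pool.Agent.W780.PG Pool.Agent.W780.BB
open Pool.Agent.TH103.BL Pool.Agent.Q75.BS

open scoped Real ComplexConjugate

variable {n : ℕ}

theorem mp_fp (p : Fin (n + 3) → ℂ) (w : List (Fin (n + 3))) : MeasurePreserving (fp p w) := by
  induction w with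
  | nil => exact MeasurePreserving.id _
  | cons i w ih => exact ih.comp (Pool.Agent.W333.BB.mp_rf p i)

/-- **HIT** -/
theorem t_HIT : S_HIT := by
  intro n p hp f hI w z θ s j c hz hfp hch hV η hη
  obtain ⟨ρ0, hρ0, hae⟩ := hV η hη
  obtain ⟨e, c', -, hec⟩ := (hR n p hp).2.2.2.2.2.2.2.2.2.2.1 w
  have hiso := (hR n p hp).2.2.2.2.2.2.2.1 w
  have hfst := (hR n p hp).2.2.2.2.2.2.2.2.1 w
  have hfd : ∀ y : ℂ, fd p w (y, θ) = (fp p w y, e * θ + c') := fun y =>
    Prod.ext (hfst y θ) (hec y θ).1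
  rw [hfd] at hae
  -- choose `s'`
  have h1 : ∀ᶠ s' in 𝓝[<] s, s - s' < ρ0 / 2 := by
    have : Tendsto (fun s' : ℝ => s - s') (𝓝[<] s) (𝓝 (s - s)) :=
      ((continuous_const.sub continuous_id).tendsto s).mono_left nhdsWithin_le_nhds
    rw [sub_self] at this
    exact this.eventually_lt_const (by linarith)
  obtain ⟨s', ⟨hs1, hs2⟩, hs3⟩ := ((hch.and h1).and self_mem_nhdsWithin).exists
  have hs3' : s' < s := hs3
  -- openness
  have hcont : Continuous fun z' : ℂ => (z', z' + s' • dir θ) := by fun_prop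
  have hop := (Pool.Agent.W762.BB.open_it n p hp w).preimage hcont
  have h2 : ∀ᶠ z' in 𝓝 z, Ch p w z' (z' + s' • dir θ) := hop.mem_nhds hs1
  have h3 : ∀ᶠ z' in 𝓝 z, z' ∈ reg p := (reg_open hp).mem_nhds hz
  obtain ⟨ρ1, hρ1, hball⟩ := Metric.eventually_nhds_iff.1 (h2.and h3)
  refine ⟨min ρ1 (ρ0 / 2), lt_min hρ1 (by linarith), ?_⟩
  have hmp : MeasurePreserving (fun z' : ℂ => fp p w (z' + s' • dir θ)) :=
    (mp_fp p w).comp (measurePreserving_add_right volume (s' • dir θ))
  have hae' := hmp.quasiMeasurePreserving.ae hae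
  filter_upwards [hae'] with z' hz' hlt
  obtain ⟨h4, h5⟩ := hball (y := z') (by
    rw [dist_eq_norm]
    exact hlt.trans_le (min_le_left _ _))
  have h6 : sli f θ z' = sli f (e * θ + c') (fp p w (z' + s' • dir θ)) := by
    unfold sli
    rw [inv_fun hp hI h5 h4, hfd]
  rw [h6]
  refine hz' (ch_mem w _ _ h4) ?_
  rw [← hfp, hiso]
  have h7 : z' + s' • dir θ - (z + s • dir θ) = (z' - z) - (s - s') • dir θ := by
    rw [sub_smul]
    ring
  rw [h7]
  refine (norm_sub_le _ _).trans_lt ?_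
  rw [norm_smul, norm_dir, mul_one, Real.norm_eq_abs, abs_of_pos (by linarith)]
  have := hlt.trans_le (min_le_right ρ1 (ρ0 / 2))
  linarith

end Pool.Agent.Q210.BS
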