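import Pool.Agent.Q75.BS.Stm

set_option autoImplicit false

/-!
# Project BS (helper75), job VC: the limits at a vertex with irrational angle are constant
-/

namespace Pool.Agent.Q210.BS

open Complex Set MeasureTheory Filter Topology Pool.Agent.W780.PG Pool.Agent.W780.BB
open Pool.Agent.TH103.BL Pool.Agent.Q75.BS

open scoped Real ComplexConjugate

variable {n : ℕ}

/-- the part of the region near the vertex -/
def nb (p : Fin (n + 3) → ℂ) (i : Fin (n + 3)) (m : ℕ) : Set ℂ :=
  reg p ∩ Metric.ball (p i) (1 / ((m : ℝ) + 1))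

/-- the averages -/
noncomputable def av (p : Fin (n + 3) → ℂ) (f : ℂ × ℝ → ℝ) (i : Fin (n + 3)) (m : ℕ) (θ : ℝ) : ℝ :=
  (∫ z in nb p i m, Real.arctan (f (z, θ))) / (volume (nb p i m)).toReal

theorem nb_open {p : Fin (n + 3) → ℂ} (hp : IsConvexPolygon p) (i : Fin (n + 3)) (m : ℕ) :
    IsOpen (nb p i m) := (reg_open hp).inter Metric.isOpen_ball

theorem nb_pos {p : Fin (n + 3) → ℂ} (hp : IsConvexPolygon p) (i : Fin (n + 3)) (m : ℕ) :
    0 < (volume (nb p i m)).toReal := by
  have hm : 0 < 1 / ((m : ℝ) + 1) := by positivity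
  have h1 : p i ∈ closure (reg p) := by
    rw [(hB n p hp).2.2.2.2.2.2.1]
    exact (hB n p hp).2.2.2.2.2.2.2.1 i
  have h2 : (nb p i m).Nonempty := by
    obtain ⟨y, hy1, hy2⟩ := mem_closure_iff.1 h1 _ Metric.isOpen_ball (Metric.mem_ball_self hm)
    exact ⟨y, hy2, hy1⟩
  have h3 : volume (nb p i m) ≠ 0 := ((nb_open hp i m).measure_pos volume h2).ne'
  have h4 : volume (nb p i m) ≠ ⊤ := by
    refine ne_top_of_le_ne_top ?_ (measure_mono (inter_subset_right))
    exact measure_ball_lt_top.ne
  exact ENNReal.toReal_pos h3 h4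

theorem nb_fin {p : Fin (n + 3) → ℂ} (i : Fin (n + 3)) (m : ℕ) :
    volume (nb p i m) ≠ ⊤ := by
  refine ne_top_of_le_ne_top ?_ (measure_mono (inter_subset_right))
  exact measure_ball_lt_top.ne

theorem av_meas {p : Fin (n + 3) → ℂ} {f : ℂ × ℝ → ℝ} (hf : Measurable f) (i : Fin (n + 3)) (m : ℕ) :
    Measurable (av p f i m) := by
  unfold av
  refine Measurable.div_const ?_ _
  have h1 : StronglyMeasurable (Function.uncurry fun (z : ℂ) (θ : ℝ) => Real.arctan (f (z, θ))) := by
    have : Measurable (Function.uncurry fun (z : ℂ) (θ : ℝ) => Real.arctan (f (z, θ))) :=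
      Real.measurable_arctan.comp hf
    exact this.stronglyMeasurable
  exact (h1.integral_prod_left (μ := volume.restrict (nb p i m))).measurable

theorem av_lim {p : Fin (n + 3) → ℂ} (hp : IsConvexPolygon p) {f : ℂ × ℝ → ℝ} (hf : Measurable f)
    {i : Fin (n + 3)} {θ c : ℝ} (h : VLim p (sli f θ) i c) :
    Tendsto (fun m => av p f i m θ) atTop (𝓝 (Real.arctan c)) := by
  rw [Metric.tendsto_atTop]
  intro ε hε
  obtain ⟨δ, hδ, hδ'⟩ := Metric.continuousAt_iff.1 (Real.continuous_arctan.continuousAt (x := c)) (ε / 2)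
    (by linarith)
  obtain ⟨ρ, hρ, hae⟩ := h (δ / 2) (by linarith)
  obtain ⟨M, hM⟩ := exists_nat_one_div_lt hρ
  refine ⟨M, fun m hm => ?_⟩
  have hmρ : 1 / ((m : ℝ) + 1) < ρ := by
    refine lt_of_le_of_lt ?_ hM
    have : (M : ℝ) ≤ m := by exact_mod_cast hm
    exact one_div_le_one_div_of_le (by positivity) (by linarith)
  have hv := nb_pos hp i m
  have hvf := nb_fin (p := p) i m
  have hmeas : MeasurableSet (nb p i m) := (nb_open hp i m).measurableSet
  have hmf : Measurable (fun z : ℂ => Real.arctan (f (z, θ))) :=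
    Real.measurable_arctan.comp (hf.comp (measurable_id.prodMk measurable_const))
  have hint : IntegrableOn (fun z : ℂ => Real.arctan (f (z, θ))) (nb p i m) := by
    refine Measure.integrableOn_of_bounded (M := π / 2) hvf hmf.aestronglyMeasurable ?_
    refine Eventually.of_forall fun z => ?_
    rw [Real.norm_eq_abs, abs_le]
    exact ⟨(Real.neg_pi_div_two_lt_arctan _).le, (Real.arctan_lt_pi_div_two _).le⟩
  have e1 : av p f i m θ - Real.arctan c =
      (∫ z in nb p i m, (Real.arctan (f (z, θ)) - Real.arctan c)) / (volume (nb p i m)).toReal := by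
    rw [integral_sub hint (integrableOn_const (hs := hvf)), setIntegral_const, smul_eq_mul, sub_div]
    unfold av
    congr 1
    rw [Measure.real]
    field_simp
  rw [Real.dist_eq, e1, abs_div, abs_of_pos hv, div_lt_iff₀ hv]
  have h2 : ∀ᵐ z : ℂ ∂volume, z ∈ nb p i m → ‖Real.arctan (f (z, θ)) - Real.arctan c‖ ≤ ε / 2 := by
    filter_upwards [hae] with z hz hzm
    have h3 := hz hzm.1 (by
      have := hzm.2
      rw [Metric.mem_ball, dist_eq_norm] at this
      exact this.trans hmρ)
    have h4 := hδ' (x := f (z, θ)) (by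
      rw [Real.dist_eq]
      unfold sli at h3
      linarith)
    rw [Real.dist_eq] at h4
    rw [Real.norm_eq_abs]
    exact h4.le
  have h5 := norm_setIntegral_le_of_norm_le_const_ae' hvf.lt_top h2
  rw [Real.norm_eq_abs] at h5
  refine h5.trans_lt ?_
  rw [Measure.real]
  exact mul_lt_mul_of_pos_right (by linarith) hv

theorem av_per {p : Fin (n + 3) → ℂ} {f : ℂ × ℝ → ℝ} (hI : IsInvariantFun p f) (i : Fin (n + 3)) (m : ℕ)
    (θ : ℝ) : av p f i m (θ + 2 * π) = av p f i m θ := by
  unfold av
  congr 1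
  refine integral_congr_ae (Eventually.of_forall fun z => ?_)
  simp only
  rw [hI.periodic]

/-- **VC** -/
theorem t_VC (hRL : S_RL) : S_VC := by
  intro n p hp f hf hI i hirr hlim
  obtain ⟨g, hg⟩ : ∃ g : ℝ → ℝ, g = fun θ => limsup (fun m => av p f i m θ) atTop := ⟨_, rfl⟩
  have hgm : Measurable g := by
    rw [hg]
    exact Measurable.limsup fun m => av_meas hf i m
  have hgper : ∀ θ, g (θ + 2 * π) = g θ := by
    intro θ
    rw [hg]
    simp only
    congr 1
    funext m
    exact av_per hI i m θ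
  have hgv : ∀ θ c, VLim p (sli f θ) i c → g θ = Real.arctan c := by
    intro θ c h
    rw [hg]
    exact (av_lim hp hf h).limsup_eq
  -- the reflection laws
  have refl : ∀ a : Fin (n + 3), (i = a ∨ i = a + 1) → ∀ᵐ θ : ℝ, g (2 * tau p a - θ) = g θ := by
    intro a hia
    have h2 : ∀ᵐ θ : ℝ, ∃ c, VLim p (sli f (2 * tau p a - θ)) i c :=
      (Measure.measurePreserving_sub_left (volume : Measure ℝ)
        (2 * tau p a)).quasiMeasurePreserving.ae hlim
    filter_upwards [hlim, h2, ae_sl hp a] with θ h3 h4 h5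
    obtain ⟨c1, hc1⟩ := h3
    obtain ⟨c2, hc2⟩ := h4
    rw [hgv θ c1 hc1, hgv _ c2 hc2]
    congr 1
    rcases lt_or_gt_of_ne h5 with h | h
    · exact (hRL n p hp f hI i a hia θ h c1 c2 hc1 hc2).symm
    · refine hRL n p hp f hI i a hia (2 * tau p a - θ) (by rw [sl_refl hp]; linarith) c2 c1 hc2 ?_
      rw [sub_sub_cancel]
      exact hc1
  have h1 := refl i (Or.inl rfl)
  have h2 := refl (i - 1) (Or.inr (by rw [sub_add_cancel]))
  obtain ⟨k, hk⟩ := Pool.Agent.W337.BB.tau_th n p hp i
  have hirr2 : Irrational ((tau p i - tau p (i - 1)) / π) := by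
    rw [hk]
    have : (π - ang p i + 2 * k * π) / π = ((1 + 2 * k : ℤ) : ℝ) - ang p i / π := by
      have := Real.pi_ne_zero
      field_simp
      push_cast
      ring
    rw [this]
    exact hirr.intCast_sub _
  have h3 := Filter.exists_eventuallyEq_const_of_forall_separating
    (l := ae (volume : Measure ℝ)) (f := g) (MeasurableSet : Set ℝ → Prop) ?_
  · obtain ⟨c0, hc0⟩ := h3
    refine ⟨Real.tan c0, ?_⟩
    filter_upwards [hc0, hlim] with θ h4 h5
    obtain ⟨c, hc⟩ := h5
    have h6 := hgv θ c hc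
    rw [h4, Function.const_apply] at h6
    rw [h6, Real.tan_arctan]
    exact hc
  · intro U hU
    rcases Pool.Agent.W363.BB.rot (g ⁻¹' U) (tau p i) (tau p (i - 1)) (hgm hU)
      (fun θ => by rw [mem_preimage, mem_preimage, hgper])
      (by filter_upwards [h1] with θ hθ; rw [mem_preimage, mem_preimage, hθ])
      (by filter_upwards [h2] with θ hθ; rw [mem_preimage, mem_preimage, hθ]) hirr2 with h | h
    · right
      exact measure_eq_zero_iff_ae_notMem.1 h
    · left
      have := measure_eq_zero_iff_ae_notMem.1 h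
      filter_upwards [this] with θ hθ
      simpa using hθ

end Pool.Agent.Q210.BS
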